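import Pool.Agent.U834.GSP.StmA

/-!
# Project GSP, package INT: the blocks of a matrix algebra occur in `ℂ^m`
-/

set_option autoImplicit false

open scoped Matrix.Norms.L2Operator Matrix
open Finset

namespace Pool.Agent.U890.GSP.INT

open Pool.Agent.U834.GSP

variable {m : ℕ} {𝒜 : StarSubalgebra ℂ (Matrix (Fin m) (Fin m) ℂ)} {k : ℕ} {d : Fin k → ℕ}

/-- the matrix units of the block `i` -/
noncomputable def E (Φ : 𝒜 ≃ₐ[ℂ] ((i : Fin k) → Matrix (Fin (d i)) (Fin (d i)) ℂ)) (i : Fin k)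
    (l j : Fin (d i)) : 𝒜 := Φ.symm (Pi.single i (Matrix.single l j 1))

theorem E_mul (Φ : 𝒜 ≃ₐ[ℂ] ((i : Fin k) → Matrix (Fin (d i)) (Fin (d i)) ℂ)) (i : Fin k)
    (l j j' r : Fin (d i)) : E Φ i l j * E Φ i j' r = if j = j' then E Φ i l r else 0 := by
  unfold E
  rw [← map_mul, ← Pi.single_mul]
  split_ifs with h
  · subst h
    rw [Matrix.single_mul_single_same, mul_one]
  · rw [Matrix.single_mul_single_of_ne _ _ _ _ h, Pi.single_zero, map_zero]

theorem mul_E (Φ : 𝒜 ≃ₐ[ℂ] ((i : Fin k) → Matrix (Fin (d i)) (Fin (d i)) ℂ)) (i : Fin k)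
    (a : 𝒜) (j o : Fin (d i)) : a * E Φ i j o = ∑ l, (Φ a i) l j • E Φ i l o := by
  apply Φ.injective
  rw [map_mul, map_sum]
  simp only [map_smul]
  unfold E
  simp only [AlgEquiv.apply_symm_apply]
  funext i'
  rw [Pi.mul_apply, Finset.sum_apply]
  by_cases h : i' = i
  · subst h
    simp only [Pi.smul_apply, Pi.single_eq_same]
    ext p q
    rw [Matrix.sum_apply]
    simp only [Matrix.smul_apply, Matrix.single_apply, smul_eq_mul]
    by_cases hq : o = q
    · subst hq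
      rw [Matrix.mul_single_apply_same]
      simp
    · rw [Matrix.mul_single_apply_of_ne _ _ _ _ _ (Ne.symm hq)]
      symm
      apply Finset.sum_eq_zero
      intro l _
      simp [hq]
  · simp [Pi.single_eq_of_ne h]

theorem t_INT : S_INT := by
  intro m 𝒜 k d Φ i
  rcases isEmpty_or_nonempty (Fin (d i)) with hemp | ⟨⟨o⟩⟩
  · refine ⟨0, fun v _ => Subsingleton.elim _ _, fun a => ?_⟩
    ext p q
    exact (hemp.false q).elim
  have hE : ((E Φ i o o : 𝒜) : Matrix (Fin m) (Fin m) ℂ) ≠ 0 := by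
    intro h
    have h1 : E Φ i o o = 0 := Subtype.ext h
    have h2 : Φ (E Φ i o o) = 0 := by rw [h1, map_zero]
    unfold E at h2
    rw [AlgEquiv.apply_symm_apply] at h2
    have h3 := congrFun h2 i
    rw [Pi.single_eq_same] at h3
    have h4 := congrFun (congrFun h3 o) o
    simp at h4
  obtain ⟨v, hv⟩ : ∃ v, ((E Φ i o o : 𝒜) : Matrix (Fin m) (Fin m) ℂ) *ᵥ v ≠ 0 := by
    by_contra h
    push Not at h
    apply hE
    ext p q
    have := congrFun (h (Pi.single q 1)) p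
    simpa using this
  set w := ((E Φ i o o : 𝒜) : Matrix (Fin m) (Fin m) ℂ) *ᵥ v with hw
  have hww : ((E Φ i o o : 𝒜) : Matrix (Fin m) (Fin m) ℂ) *ᵥ w = w := by
    rw [hw, Matrix.mulVec_mulVec]
    have h1 : E Φ i o o * E Φ i o o = E Φ i o o := by rw [E_mul, if_pos rfl]
    have h2 := congrArg (fun a : 𝒜 => (a : Matrix (Fin m) (Fin m) ℂ)) h1
    simp only [MulMemClass.coe_mul] at h2
    rw [h2]
  refine ⟨Matrix.of fun p j => (((E Φ i j o : 𝒜) : Matrix (Fin m) (Fin m) ℂ) *ᵥ w) p, ?_, ?_⟩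
  · intro c hc
    funext j0
    have h1 : ∑ j, c j • (((E Φ i j o : 𝒜) : Matrix (Fin m) (Fin m) ℂ) *ᵥ w) = 0 := by
      rw [← hc]
      funext p
      rw [Finset.sum_apply]
      simp only [Matrix.mulVec, dotProduct, Matrix.of_apply, Pi.smul_apply, smul_eq_mul]
      exact Finset.sum_congr rfl fun j _ => mul_comm _ _
    have h2 := congrArg (fun u => ((E Φ i o j0 : 𝒜) : Matrix (Fin m) (Fin m) ℂ) *ᵥ u) h1
    simp only [Matrix.mulVec_zero, Matrix.mulVec_sum, Matrix.mulVec_smul, Matrix.mulVec_mulVec] at h2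
    have h3 : ∀ j, ((E Φ i o j0 : 𝒜) : Matrix (Fin m) (Fin m) ℂ) *
        ((E Φ i j o : 𝒜) : Matrix (Fin m) (Fin m) ℂ) =
        if j0 = j then ((E Φ i o o : 𝒜) : Matrix (Fin m) (Fin m) ℂ) else 0 := by
      intro j
      have h4 := congrArg (fun a : 𝒜 => (a : Matrix (Fin m) (Fin m) ℂ)) (E_mul Φ i o j0 j o)
      simp only [MulMemClass.coe_mul] at h4
      rw [h4]
      split_ifs <;> rfl
    simp only [h3] at h2
    rw [Finset.sum_eq_single j0] at h2
    · rw [if_pos rfl, hww] at h2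
      rcases smul_eq_zero.1 h2 with h | h
      · exact h
      · exact absurd h hv
    · intro j _ hj
      rw [if_neg (Ne.symm hj), Matrix.zero_mulVec, smul_zero]
    · intro h
      exact absurd (Finset.mem_univ _) h
  · intro a
    ext p j
    have h1 := congrArg (fun x : 𝒜 => (x : Matrix (Fin m) (Fin m) ℂ)) (mul_E Φ i a j o)
    simp only [MulMemClass.coe_mul] at h1
    have h5 : (((∑ l, (Φ a i) l j • E Φ i l o : 𝒜)) : Matrix (Fin m) (Fin m) ℂ) =
        ∑ l, (Φ a i) l j • ((E Φ i l o : 𝒜) : Matrix (Fin m) (Fin m) ℂ) := by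
      rw [AddSubmonoidClass.coe_finsetSum]
      rfl
    rw [h5] at h1
    have h2 : ((a : Matrix (Fin m) (Fin m) ℂ) * Matrix.of fun p j =>
        (((E Φ i j o : 𝒜) : Matrix (Fin m) (Fin m) ℂ) *ᵥ w) p) p j =
        (((a : Matrix (Fin m) (Fin m) ℂ) * ((E Φ i j o : 𝒜) : Matrix (Fin m) (Fin m) ℂ)) *ᵥ w) p := by
      rw [← Matrix.mulVec_mulVec, Matrix.mul_apply]
      simp only [Matrix.of_apply]
      rfl
    rw [h2, h1, Matrix.sum_mulVec, Finset.sum_apply, Matrix.mul_apply]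
    apply Finset.sum_congr rfl
    intro l _
    rw [Matrix.smul_mulVec, Pi.smul_apply, smul_eq_mul, Matrix.of_apply, mul_comm]

end Pool.Agent.U890.GSP.INT
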